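import Pool.Agent.helper97.KR.Spec

set_option autoImplicit false

namespace Pool.Agent.helper97.KR

open Finset Classical

noncomputable section

theorem CUT_cov {V E : Type} (ends : E → Sym2 V) (S : Finset V) (F : Finset E)
    (hsub : ∀ e ∈ F, ∀ v ∈ ends e, v ∈ S) (U : Finset V) :
    F.card ≤ (ins ends F U).card + (ins ends F (S \ U)).card + (cut ends F U).card := by
  have h1 : F ⊆ (ins ends F U ∪ ins ends F (S \ U)) ∪ cut ends F U := by
    intro e he
    rw [Finset.mem_union, Finset.mem_union]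
    by_cases h : ∀ v ∈ ends e, v ∈ U
    · left; left
      exact Finset.mem_filter.2 ⟨he, h⟩
    · by_cases h' : ∃ v ∈ ends e, v ∈ U
      · right
        refine Finset.mem_filter.2 ⟨he, h', ?_⟩
        by_contra hc
        apply h
        intro v hv
        by_contra hv2
        exact hc ⟨v, hv, hv2⟩
      · left; right
        refine Finset.mem_filter.2 ⟨he, ?_⟩
        intro v hv
        refine Finset.mem_sdiff.2 ⟨hsub e he v hv, ?_⟩
        intro hvU
        exact h' ⟨v, hv, hvU⟩
  calc F.card ≤ ((ins ends F U ∪ ins ends F (S \ U)) ∪ cut ends F U).card := Finset.card_le_card h1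
    _ ≤ (ins ends F U ∪ ins ends F (S \ U)).card + (cut ends F U).card := Finset.card_union_le _ _
    _ ≤ _ := Nat.add_le_add_right (Finset.card_union_le _ _) _

theorem CUT_other {V : Type} (z : Sym2 V) (hz : ¬ z.IsDiag) (v : V) (hv : v ∈ z) :
    ∃ w ∈ z, w ≠ v := by
  induction z using Sym2.ind with
  | _ a b =>
    rw [Sym2.mk_isDiag_iff] at hz
    rcases Sym2.mem_iff.1 hv with h | h
    · refine ⟨b, Sym2.mem_mk_right a b, ?_⟩
      rw [h]
      exact fun hh => hz hh.symm
    · refine ⟨a, Sym2.mem_mk_left a b, ?_⟩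
      rw [h]
      exact hz

theorem CUT (hSP3 : SP3_stmt) : CUT_stmt := by
  intro V E ends S F hG hsl hdeg U hU hne hneS
  obtain ⟨hF, hI⟩ := hSP3 V E ends S F hG
  have hcov := CUT_cov ends S F hG.sub U
  have hcard : U.card + (S \ U).card = S.card := by
    rw [Finset.card_sdiff_of_subset hU]
    have := Finset.card_le_card hU
    omega
  have hWne : (S \ U).Nonempty := by
    rw [Finset.sdiff_nonempty]
    intro hSU
    exact hneS (Finset.Subset.antisymm hU hSU)
  have hU1 : 1 ≤ U.card := hne.card_pos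
  have hW1 : 1 ≤ (S \ U).card := hWne.card_pos
  by_cases hc1 : U.card = 1
  · obtain ⟨v, hv⟩ := Finset.card_eq_one.1 hc1
    have hvS : v ∈ S := hU (by rw [hv]; exact Finset.mem_singleton_self v)
    refine le_trans (hdeg v hvS) (Finset.card_le_card ?_)
    intro e he
    obtain ⟨heF, hve⟩ := Finset.mem_filter.1 he
    obtain ⟨w, hw, hwv⟩ := CUT_other (ends e) (hG.loop e heF) v hve
    refine Finset.mem_filter.2 ⟨heF, ⟨v, hve, ?_⟩, ⟨w, hw, ?_⟩⟩
    · rw [hv]; exact Finset.mem_singleton_self v
    · rw [hv]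
      intro h
      exact hwv (Finset.mem_singleton.1 h)
  · by_cases hc2 : (S \ U).card = 1
    · obtain ⟨v, hv⟩ := Finset.card_eq_one.1 hc2
      have hvW : v ∈ S \ U := by rw [hv]; exact Finset.mem_singleton_self v
      obtain ⟨hvS, hvU⟩ := Finset.mem_sdiff.1 hvW
      refine le_trans (hdeg v hvS) (Finset.card_le_card ?_)
      intro e he
      obtain ⟨heF, hve⟩ := Finset.mem_filter.1 he
      obtain ⟨w, hw, hwv⟩ := CUT_other (ends e) (hG.loop e heF) v hve
      refine Finset.mem_filter.2 ⟨heF, ⟨w, hw, ?_⟩, ⟨v, hve, hvU⟩⟩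
      by_contra hwU
      have hwW : w ∈ S \ U := Finset.mem_sdiff.2 ⟨hG.sub e heF w hw, hwU⟩
      rw [hv] at hwW
      exact hwv (Finset.mem_singleton.1 hwW)
    · have h1 := hsl U hU (by omega) (by omega)
      have h2 := hsl (S \ U) Finset.sdiff_subset (by omega) (by omega)
      omega

end

end Pool.Agent.helper97.KR
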